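import Pool.Agent.GEN.StmtsR

/-!
# Row CHN: the chain of formal powers and the relative functional equation
-/

set_option autoImplicit false
set_option linter.unusedVariables false
set_option linter.unusedSectionVars false

namespace Pool.Agent.GEN.H28

open MvPolynomial Finset Pool.Agent.Helper6_Mono Pool.Agent.Helper30_Simp
  Pool.Agent.Helper30_Simp2

theorem chn (hE : ERootStmtA) : ChainStmtA := by
  classical
  intro σ _ E _ _ f z θ φ hφ hfin hs n hn N hact hd h0 d be hb
  set s : E := ∑ α ∈ f.support, θ α with hsdef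
  -- the normalizing factors
  let c : ℕ → E := fun l => ∏ i ∈ Finset.range l, ((hs i).unit⁻¹ : Eˣ)
  have hc : ∀ l : ℕ, c (l + 1) * (s - (l : E)) = c l := by
    intro l
    show (∏ i ∈ Finset.range (l + 1), (((hs i).unit⁻¹ : Eˣ) : E)) * _ = _
    rw [Finset.prod_range_succ, mul_assoc, IsUnit.val_inv_mul, mul_one]
  let psi : ℕ → ((σ → ℤ) → E) := fun l => c l • psiF f φ (l : ℤ)
  have hmul : ∀ l : ℕ, actF σ E f (psi (l + 1)) = psi l := by
    intro l
    show actF σ E f (c (l + 1) • psiF f φ ((l + 1 : ℕ) : ℤ)) = c l • psiF f φ (l : ℤ)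
    rw [map_smul]
    funext w
    rw [Pi.smul_apply, Pi.smul_apply, smul_eq_mul, smul_eq_mul]
    have := psi_mul hφ hfin (l : ℤ) w
    push_cast at this ⊢
    rw [this, ← mul_assoc, hc]
  have hder : ∀ j, j ≠ z → ∀ l : ℕ, dF n j (psi l)
      = (s - (l : E)) • actF σ E (pderiv j f) (psi (l + 1)) := by
    intro j _ l
    show dF n j (c l • psiF f φ (l : ℤ))
      = (s - (l : E)) • actF σ E (pderiv j f) (c (l + 1) • psiF f φ ((l + 1 : ℕ) : ℤ))
    rw [map_smul, map_smul]
    funext w
    rw [Pi.smul_apply, Pi.smul_apply, Pi.smul_apply, smul_eq_mul, smul_eq_mul, smul_eq_mul]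
    have := psi_d hφ hfin (hn j) (l : ℤ) w
    push_cast at this ⊢
    rw [this, ← mul_assoc, mul_comm (s - (l : E)), hc]
  have h3 : psi 0 = psiF f φ 0 := by
    show c 0 • psiF f φ ((0 : ℕ) : ℤ) = _
    have : c 0 = 1 := Finset.prod_range_zero _
    rw [this, one_smul]
    rfl
  have h1 : actF σ E f (psi 0) ∈ N := by
    have h2 : actF σ E f (psi 0) = (s + 1) • psiF f φ (-1) := by
      funext w
      have := psi_mul hφ hfin (-1 : ℤ) w
      rw [h3, Pi.smul_apply, smul_eq_mul]
      rw [show (-1 : ℤ) + 1 = 0 by ring] at this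
      rw [this]
      push_cast
      ring
    rw [h2]
    exact N.smul_mem _ h0
  have h4 := hE σ E ((σ → ℤ) → E) f s z (actF σ E) (dF n) (fun i _ j F => leibF n i j F) psi hmul
    hder N hact hd h1 d be hb
  rwa [h3] at h4

end Pool.Agent.GEN.H28
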