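import Pool.Agent.GEN.StmtsZC
import Pool.Agent.Helper39_Simp.Split
import Pool.Agent.Helper51_Simp.FTS

/-!
# Row STK: the strata of the bundle
-/

set_option autoImplicit false
set_option linter.unusedVariables false
set_option linter.unusedSectionVars false

namespace Pool.Agent.GEN.H28

open PowerSeries Finset Pool.Agent.Helper6_Mono Pool.Agent.Helper30_Simp
  Pool.Agent.Helper30_Simp.H39 Pool.Agent.Helper30_Simp2 Pool.Agent.Helper30_Simp2.H63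
open Pool.Agent.Helper30_Simp.H51 (crd)

section

variable {k : Type} [Field k] {σ : Type} [Fintype σ]

/-- `TE` is of finite type -/
theorem ft_TE {g : MvPolynomial σ k} (V : TS QZ g) (hμ : V.μ = 0) (b : Bool) (K : Finset σ) :
    FT (TE V hμ b K).F := by
  classical
  let T0 : Finset σ := univ.filter fun i => i ∈ V.U → i ∉ K
  have h1 : FT (V.A.tor (crd V) T0 V.U).F := FT.tor (FT.pi _) _ _ _
  let v : NF (V.A.tor (crd V) T0 V.U).F 0 :=
    ⟨fun {S} _ _ x => MvPolynomial.aeval x.1 g - eB b S, fun {S S'} _ _ _ _ φ c x => by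
      show MvPolynomial.aeval (fun i => chr c (V.ν i) * φ (x.1 i)) g - eB b S' = _
      rw [aeval_twist V, hμ, chr_zero, map_sub, eB_map, one_mul, one_mul]⟩
  have h2 : FT ((V.A.tor (crd V) T0 V.U).zero v).F := FT.zero h1 v
  exact FT.of_equiv (F := (TE V hμ b K).F) (G := ((V.A.tor (crd V) T0 V.U).zero v).F)
    ⟨fun S _ _ =>
    { toFun := fun x => ⟨⟨x.1, fun i hi => ⟨fun h => (x.2.1 i).1 h ((mem_filter.1 hi).2 h),
        (x.2.1 i).2⟩⟩, sub_eq_zero.2 x.2.2⟩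
      invFun := fun x => ⟨x.1.1, fun i => ⟨fun h h' =>
        (x.1.2 i (mem_filter.2 ⟨mem_univ i, fun _ => h'⟩)).1 h, fun h =>
        (x.1.2 i (mem_filter.2 ⟨mem_univ i, fun h'' => absurd h'' h⟩)).2 h⟩,
        sub_eq_zero.1 x.2⟩
      left_inv := fun x => rfl
      right_inv := fun x => rfl }, fun φ c x => rfl⟩ h2

/-- the weights on a stratum -/
@[reducible] noncomputable def VV {f : MvPolynomial σ k} {I I' : Finset (σ →₀ ℕ)}
    (V : TS QZ (part f I)) (h : I' ⊆ I) (D : Finset σ) : TS QZ (part f I') where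
  ν := V.ν
  μ := V.μ
  hg := (resT V h).hg
  U := by classical exact V.U \ D
  J := V.J
  hJ := V.hJ

theorem mem_VV {f : MvPolynomial σ k} {I I' : Finset (σ →₀ ℕ)}
    (V : TS QZ (part f I)) (h : I' ⊆ I) (D : Finset σ) (i : σ) :
    i ∈ (VV V h D).U ↔ i ∈ V.U ∧ i ∉ D := by
  classical
  show i ∈ V.U \ D ↔ _
  rw [Finset.mem_sdiff]

/-- the coordinates as functions on `TE` -/
@[reducible] noncomputable def cfn {g : MvPolynomial σ k} (V : TS QZ g) (hμ : V.μ = 0) (b : Bool)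
    (K : Finset σ) (i : σ) : NF (TE V hμ b K).F (V.ν i) :=
  ⟨fun x => x.1 i, fun φ c x => rfl⟩

theorem strat_iso (h1 : DcaStmt) {f : MvPolynomial σ k} {I : Finset (σ →₀ ℕ)} {K K' D : Finset σ}
    (hK : Stab I K) (b : Bool) (V : TS QZ (part f I)) (hμ : V.μ = 0) (hKU : ∀ i ∈ K, i ∈ V.U)
    (hK' : K' ⊆ K) (hkeep : keep I K K' ⊆ I) (hD : ∀ i, i ∈ D ↔ i ∈ K ∧ i ∉ K') :
    OIso ((TE V hμ b K).tor (cfn V hμ b K) K K') (TE (VV V hkeep D) hμ b ∅) := by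
  have key : ∀ (S : Type) [CommRing S] [Algebra k S] (x : σ → S),
      (∀ j ∈ K, j ∉ K' → x j = 0) →
      MvPolynomial.aeval x (part f I) = MvPolynomial.aeval x (part f (keep I K K')) :=
    fun S _ _ x hx => (h1 k σ f I K hK S).2.2.1 x K' hK' hx
  refine OIso.mk' (fun S _ _ x => ⟨x.1.1, fun i => ⟨fun h _ => ?_, fun h => ?_⟩, ?_⟩)
    (fun S _ _ x => ⟨⟨x.1, fun i => ⟨fun h h' => ?_, fun h => ?_⟩, ?_⟩, fun i hi =>
      ⟨fun h => ?_, fun h => ?_⟩⟩)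
    (fun S _ _ x => rfl) (fun S _ _ x => rfl) (fun φ c x => rfl) (fun S _ _ x b => rfl)
  · rw [mem_VV, hD] at h
    by_cases hiK : i ∈ K
    · have hiK' : i ∈ K' := by
        by_contra h'
        exact h.2 ⟨hiK, h'⟩
      exact (x.2 i hiK).1 hiK'
    · exact (x.1.2.1 i).1 h.1 hiK
  · rw [mem_VV, hD, not_and_or, not_not] at h
    rcases h with h | h
    · exact (x.1.2.1 i).2 h
    · exact (x.2 i h.1).2 h.2
  · rw [← key S x.1.1 fun j hj hj' => (x.2 j hj).2 hj']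
    exact x.1.2.2
  · exact (x.2.1 i).1 ((mem_VV V hkeep D i).2 ⟨h, fun h'' => h' ((hD i).1 h'').1⟩)
      (Finset.notMem_empty i)
  · exact (x.2.1 i).2 fun h'' => h ((mem_VV V hkeep D i).1 h'').1
  · show MvPolynomial.aeval x.1 (part f I) = eB b S
    rw [key S x.1 fun j hj hj' => (x.2.1 j).2 fun h'' =>
      ((mem_VV V hkeep D j).1 h'').2 ((hD j).2 ⟨hj, hj'⟩)]
    exact x.2.2
  · exact (x.2.1 i).1 ((mem_VV V hkeep D i).2 ⟨hKU i hi, fun h'' => ((hD i).1 h'').2 h⟩)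
      (Finset.notMem_empty i)
  · exact (x.2.1 i).2 fun h'' => ((mem_VV V hkeep D i).1 h'').2 ((hD i).2 ⟨hi, h⟩)

theorem te_false {g : MvPolynomial σ k} (V : TS QZ g) (hμ : V.μ = 0) :
    OIso (TE V hμ false ∅) (TT0 V) := by
  refine OIso.mk' (fun S _ _ x => ⟨x.1, fun i => ⟨fun h => (x.2.1 i).1 h (Finset.notMem_empty i),
      (x.2.1 i).2⟩, x.2.2⟩)
    (fun S _ _ x => ⟨x.1, fun i => ⟨fun h _ => (x.2.1 i).1 h, (x.2.1 i).2⟩, x.2.2⟩)
    (fun S _ _ x => rfl) (fun S _ _ x => rfl) (fun φ c x => rfl) (fun S _ _ x b => rfl)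

theorem te_true {g : MvPolynomial σ k} (V : TS QZ g) (hμ : V.μ = 0) :
    OIso (TE V hμ true ∅) (TT1 V hμ) := by
  refine OIso.mk' (fun S _ _ x => ⟨x.1, fun i => ⟨fun h => (x.2.1 i).1 h (Finset.notMem_empty i),
      (x.2.1 i).2⟩, x.2.2⟩)
    (fun S _ _ x => ⟨x.1, fun i => ⟨fun h _ => (x.2.1 i).1 h, (x.2.1 i).2⟩, x.2.2⟩)
    (fun S _ _ x => rfl) (fun S _ _ x => rfl) (fun φ c x => rfl) (fun S _ _ x b => rfl)

theorem ts_ext {g : MvPolynomial σ k} {V1 V2 : TS QZ g} (h1 : V1.ν = V2.ν) (h2 : V1.μ = V2.μ)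
    (h3 : V1.U = V2.U) (h4 : V1.J = V2.J) : V1 = V2 := by
  obtain ⟨ν, μ, hg, U, J, hJ⟩ := V1
  obtain ⟨ν', μ', hg', U', J', hJ'⟩ := V2
  simp only at h1 h2 h3 h4
  subst h1
  subst h2
  subst h3
  subst h4
  rfl

variable {R : Type 1} [CommRing R] {L : Rˣ}

theorem te_rem (χ : SInv k (fun _ : σ => (0 : QZ)) L) {g : MvPolynomial σ k} (V : TS QZ g)
    (hμ : V.μ = 0) (b : Bool) (T : Finset σ)
    (hT : ∀ i ∈ T, i ∈ V.U ∧ i ∉ V.J ∧ ∀ α ∈ g.support, α i = 0) :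
    χ.χ (TE V hμ b ∅) = ((L : R) - 1) ^ T.card * χ.χ (TE (TS.rem V T) hμ b ∅) := by
  have h := split_all (Pool.Agent.Helper30_Simp.H39.split Pool.Agent.Helper30_Simp.H51.fts) χ V T
    hT
  cases b
  · rw [χ.iso (ft_TE V hμ false ∅) (te_false V hμ),
      χ.iso (ft_TE (TS.rem V T) hμ false ∅) (te_false (TS.rem V T) hμ)]
    exact h.1
  · rw [χ.iso (ft_TE V hμ true ∅) (te_true V hμ),
      χ.iso (ft_TE (TS.rem V T) hμ true ∅) (te_true (TS.rem V T) hμ)]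
    exact h.2 hμ

theorem te_congr (χ : SInv k (fun _ : σ => (0 : QZ)) L) {g : MvPolynomial σ k} {V1 V2 : TS QZ g}
    (h : V1 = V2) (h1 : V1.μ = 0) (h2 : V2.μ = 0) (b : Bool) :
    χ.χ (TE V1 h1 b ∅) = χ.χ (TE V2 h2 b ∅) := by
  subst h
  rfl

end

theorem mem_keep {σ : Type} {I : Finset (σ →₀ ℕ)} {K K' : Finset σ} {α : σ →₀ ℕ} :
    α ∈ keep I K K' ↔ α ∈ I ∧ ∀ j ∈ K, j ∉ K' → α j = 0 := by
  unfold keep
  simp only [Finset.mem_filter]

/-- **STK** -/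
theorem stk (h1 : DcaStmt) (h2 : DcbStmt) : StkStmt := by
  classical
  intro k _ σ _ R _ L χ f I J K hI hJ hK b V hμ hU hVJ hkeep
  have hft := ft_TE V hμ b K
  refine ⟨hft, ?_⟩
  have hKI : ∀ j ∈ K, ∃ α ∈ I, α j ≠ 0 := by
    intro j hj
    obtain ⟨α, hα, h⟩ := hK.2.2 j hj
    exact ⟨α, hα, by rw [h]; exact one_ne_zero⟩
  have hKJ : ∀ j ∈ K, j ∉ J := fun j hj => Finset.disjoint_left.1 hJ hj
  have hKU : ∀ i ∈ K, i ∈ V.U := by
    intro i hi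
    rw [hU, mem_freeV]
    rintro ⟨-, h⟩
    obtain ⟨α, hα, h'⟩ := hKI i hi
    exact h' (h α hα)
  rw [χ.torus hft (cfn V hμ b K) K]
  refine Finset.sum_congr rfl fun K' hK' => ?_
  have hsub : K' ⊆ K := Finset.mem_powerset.1 hK'
  have hD : ∀ i, i ∈ K \ K' ↔ i ∈ K ∧ i ∉ K' := fun i => Finset.mem_sdiff
  rw [χ.iso (FT.tor hft (cfn V hμ b K) K K')
    (strat_iso h1 hK b V hμ hKU hsub (hkeep K') hD)]
  -- the variables of `I`, of `keep`
  obtain ⟨A, hAdef⟩ : ∃ A : Finset σ, A = univ.filter fun i => i ∉ J ∧ ∃ α ∈ I, α i ≠ 0 :=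
    ⟨_, rfl⟩
  have hAm : ∀ i, i ∈ A ↔ i ∉ J ∧ ∃ α ∈ I, α i ≠ 0 := by
    intro i
    rw [hAdef, Finset.mem_filter]
    simp
  have hAc : A.card = dd I J := by
    rw [hAdef]
    unfold dd
    congr
  obtain ⟨C, hCdef⟩ : ∃ C : Finset σ, C = univ.filter fun i => i ∉ J ∧
    ∃ α ∈ keep I K K', α i ≠ 0 := ⟨_, rfl⟩
  have hCm : ∀ i, i ∈ C ↔ i ∉ J ∧ ∃ α ∈ keep I K K', α i ≠ 0 := by
    intro i
    rw [hCdef, Finset.mem_filter]
    simp
  have hCc : C.card = dd (keep I K K') J := by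
    rw [hCdef]
    unfold dd
    congr
  have hkm : ∀ α, α ∈ keep I K K' → ∀ j ∈ K, j ∉ K' → α j = 0 := by
    intro α hα
    exact (mem_keep.1 hα).2
  have hBA : K \ K' ⊆ A := by
    intro i hi
    rw [hD] at hi
    rw [hAm]
    exact ⟨hKJ i hi.1, hKI i hi.1⟩
  have hCA : C ⊆ A \ (K \ K') := by
    intro i hi
    rw [hCm] at hi
    obtain ⟨hiJ, α, hα, hαi⟩ := hi
    rw [Finset.mem_sdiff, hAm, hD]
    exact ⟨⟨hiJ, α, hkeep K' hα, hαi⟩, fun h => hαi (hkm α hα i h.1 h.2)⟩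
  have hTc : ((A \ (K \ K')) \ C).card = gex I J K K' := by
    have e1 := (h2 σ I J).1 K K' hKI hJ hsub
    have e2 := Finset.card_le_card hsub
    unfold gex
    rw [Finset.card_sdiff_of_subset hCA, Finset.card_sdiff_of_subset hBA,
      Finset.card_sdiff_of_subset hsub, hAc, hCc]
    omega
  rw [te_rem χ (VV V (hkeep K') (K \ K')) hμ b ((A \ (K \ K')) \ C) ?_, hTc]
  · congr 1
    refine te_congr χ (V1 := TS.rem (VV V (hkeep K') (K \ K')) ((A \ (K \ K')) \ C))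
      (V2 := resT V (hkeep K')) (ts_ext rfl rfl ?_ rfl) hμ hμ b
    ext i
    have hR : i ∈ (resT V (hkeep K')).U ↔ i ∉ freeV (keep I K K') J := by
      show i ∈ univ \ freeV (keep I K K') V.J ↔ _
      rw [Finset.mem_sdiff, hVJ]
      exact ⟨fun h => h.2, fun h => ⟨Finset.mem_univ i, h⟩⟩
    rw [hR, TS.mem_rem, mem_VV, hD, hU, mem_freeV, mem_freeV, Finset.mem_sdiff,
      Finset.mem_sdiff, hAm, hCm, hD]
    constructor
    · rintro ⟨⟨h3, h4⟩, h5⟩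
      refine fun h6 => h5 ⟨⟨⟨h6.1, ?_⟩, h4⟩, ?_⟩
      · by_contra h7
        push Not at h7
        exact h3 ⟨h6.1, h7⟩
      · rintro ⟨-, α, hα, h7⟩
        exact h7 (h6.2 α hα)
    · intro h3
      by_cases h4 : i ∈ J
      · exact ⟨⟨fun h => h.1 h4, fun h => hKJ i h.1 h4⟩, fun h => h.1.1.1 h4⟩
      · have h5 : ∃ α ∈ keep I K K', α i ≠ 0 := by
          by_contra h6
          push Not at h6
          exact h3 ⟨h4, h6⟩
        obtain ⟨α, hα, h6⟩ := h5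
        exact ⟨⟨fun h => h6 (h.2 α (hkeep K' hα)), fun h => h6 (hkm α hα i h.1 h.2)⟩,
          fun h => h.2 ⟨h4, α, hα, h6⟩⟩
  · intro i hi
    rw [Finset.mem_sdiff, Finset.mem_sdiff, hAm, hCm, hD] at hi
    obtain ⟨⟨⟨h3, h4⟩, h5⟩, h6⟩ := hi
    refine ⟨?_, ?_, ?_⟩
    · rw [mem_VV, hU, mem_freeV, hD]
      refine ⟨?_, h5⟩
      rintro ⟨-, h7⟩
      obtain ⟨α, hα, h8⟩ := h4
      exact h8 (h7 α hα)
    · show i ∉ V.J
      rw [hVJ]
      exact h3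
    · intro α hα
      by_contra h7
      exact h6 ⟨h3, α, mem_of_mem_part_support hα, h7⟩

end Pool.Agent.GEN.H28
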